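import Mathlib
import Pool.Agent.MVO.StmtsA

set_option autoImplicit false

/-! Row TAC of the squad MVO: tightness of class a over `O3`. -/

namespace Pool.Agent.MVO.H65

open Pool.Agent.Helper14_MV Pool.Agent.Helper2_MV Pool.Agent.MVO

namespace TacRow

theorem rr_mono {β ρ : FIC} (h : β ≤ ρ) {l l' : List ℕ} (hr : RR β l l') : RR ρ l l' := h _ _ hr

theorem rr_trans {ρ : FIC} {l m n : List ℕ} (h : RR ρ l m) (h' : RR ρ m n) : RR ρ l n :=
  ρ.trans h h'

theorem clA_mono {β ρ : FIC} (h : β ≤ ρ) (hc : ClA β) : ClA ρ :=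
  ⟨rr_mono h hc.s1, rr_mono h hc.s2⟩

/-- `y t x x x y ~ y t y x x x` -/
theorem base {ρ : FIC} (hc : ClA ρ) (h3 : O3 (FC.ofFIC ρ)) :
    RR ρ [1, 2, 0, 0, 0, 1] [1, 2, 1, 0, 0, 0] := by
  have h0 : RR ρ [0, 0, 0, 2] [0, 0, 2, 0] := h3
  have h1 : RR ρ [0, 0, 0, 1] [0, 0, 1, 0] := h0.sub (fun c => if c = 2 then [1] else [c])
  have h2 : RR ρ [1, 2, 0, 0, 0, 1] [1, 2, 0, 0, 1, 0] := (RR.refl (β := ρ) [1, 2]).append h1
  have h4 : RR ρ [1, 2, 0, 1, 0, 0] [1, 2, 0, 0, 1, 0] :=
    hc.s2.sub (fun c => if c = 0 then [1] else if c = 1 then [0] else if c = 2 then [2, 0] else [])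
  have h5 : RR ρ [1, 2, 1, 0, 0] [1, 2, 0, 1, 0] :=
    hc.s2.sub (fun c => if c = 0 then [1] else if c = 1 then [0] else if c = 2 then [2] else [])
  have h6 : RR ρ [1, 2, 1, 0, 0, 0] [1, 2, 0, 1, 0, 0] := h5.append (RR.refl (β := ρ) [0])
  exact rr_trans h2 (rr_trans h4.symm h6.symm)

theorem base_bt {ρ : FIC} (hc : ClA ρ) (h3 : O3 (FC.ofFIC ρ)) :
    Bt ρ 1 (v2 0 3) (v2 1 1) 1 := by
  intro e
  have hb := base hc h3
  have key : ∀ e : ℕ → Bool, w2 1 (v2 0 3) (v2 1 1) e =
      if e 1 then [1, 2, 1, 0, 0, 0] else [1, 2, 0, 0, 0, 1] := by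
    intro e
    have h01 : bl 0 1 (e 0) = [1] := by cases e 0 <;> rfl
    change bl 0 1 (e 0) ++ 2 :: bl 3 1 (e 1) = _
    rw [h01]
    cases e 1 <;> rfl
  unfold Ex
  rw [key, key]
  have hf : flp e 1 1 = !(e 1) := by simp [flp]
  rw [hf]
  cases e 1
  · exact hb
  · exact hb.symm

theorem le_deg' {k i : ℕ} {a : ℕ → ℕ} (hi : i ≤ k) : a i ≤ deg k a := by
  unfold deg
  exact Finset.single_le_sum (f := a) (fun _ _ => Nat.zero_le _)
    (Finset.mem_range.mpr (by omega))

theorem mem_sp' {k j : ℕ} {a : ℕ → ℕ} : j ∈ sp k a ↔ j ≤ k ∧ a j ≠ 0 := by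
  unfold sp
  rw [Finset.mem_filter, Finset.mem_range]
  constructor
  · rintro ⟨h1, h2⟩
    exact ⟨by omega, h2⟩
  · rintro ⟨h1, h2⟩
    exact ⟨by omega, h2⟩

theorem max_of {P : Finset ℕ} {m : ℕ} (hm : m ∈ P) (h : ∀ j ∈ P, j ≤ m) :
    P.max = (m : WithBot ℕ) := by
  apply le_antisymm
  · apply Finset.max_le
    intro j hj
    exact WithBot.coe_le_coe.2 (h j hj)
  · exact Finset.le_max hm

theorem le_of_max {P : Finset ℕ} {m : ℕ} (h : P.max = (m : WithBot ℕ)) {j : ℕ} (hj : j ∈ P) :
    j ≤ m := by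
  have h1 := Finset.le_max hj
  rw [h] at h1
  exact WithBot.coe_le_coe.1 h1

/-- another occurrence -/
theorem other {k i : ℕ} {b : ℕ → ℕ} (hmax : (sp k b).max = (i : WithBot ℕ)) (hb : 2 ≤ deg k b)
    (hbi : b i = 1) : ∃ j, j < i ∧ 1 ≤ b j := by
  by_contra hcon
  push Not at hcon
  have hik : i ≤ k := (mem_sp'.1 (Finset.mem_of_max hmax)).1
  have h1 : deg k b = b i := by
    unfold deg
    apply Finset.sum_eq_single i
    · intro j hj hji
      rw [Finset.mem_range] at hj
      rcases Nat.lt_or_gt_of_ne hji with h | h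
      · have := hcon j h
        omega
      · by_contra h0
        have := le_of_max hmax (mem_sp'.2 ⟨by omega, h0⟩)
        omega
    · intro h
      exact absurd (Finset.mem_range.mpr (by omega)) h
  omega

/-- the map of two blocks -/
def tb (p q : ℕ) : ℕ → ℕ := fun t => if t = 0 then p else q

theorem bmap_tb {k p q : ℕ} (h : p ≤ q) (hq : q ≤ k) : BMap 1 k (tb p q) := by
  refine ⟨?_, ?_⟩
  · intro i j hij _
    unfold tb
    by_cases h1 : j = 0
    · have h2 : i = 0 := by omega
      rw [if_pos h1, if_pos h2]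
    · rw [if_neg h1]
      by_cases h2 : i = 0
      · rw [if_pos h2]
        exact h
      · rw [if_neg h2]
  · intro i _
    unfold tb
    by_cases h2 : i = 0
    · rw [if_pos h2]
      omega
    · rw [if_neg h2]
      exact hq

theorem psh_tb (p q u v : ℕ) (j : ℕ) :
    psh 1 (tb p q) (v2 u v) j = (if j = p then u else 0) + (if j = q then v else 0) := by
  unfold psh
  rw [Finset.sum_range_succ, Finset.sum_range_succ, Finset.sum_range_zero, Nat.zero_add]
  simp only [tb, v2, if_true, one_ne_zero, if_false, eq_comm (a := j)]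

theorem deg_v2 (p q : ℕ) : deg 1 (v2 p q) = p + q := by
  unfold deg
  rw [Finset.sum_range_succ, Finset.sum_range_succ, Finset.sum_range_zero, Nat.zero_add]
  simp [v2]

theorem sp_v2_max (p q : ℕ) (hq : q ≠ 0) : (sp 1 (v2 p q)).max = ((1 : ℕ) : WithBot ℕ) := by
  apply max_of
  · rw [mem_sp']
    exact ⟨le_refl 1, by simpa [v2] using hq⟩
  · intro j hj
    exact (mem_sp'.1 hj).1

theorem z0 (hfaa : FaaStmt) {ρ : FIC} (hc : ClA ρ) (hr : R0 ρ) (h3 : O3 (FC.ofFIC ρ))
    {k : ℕ} {a b : ℕ → ℕ} {i : ℕ} (hi : i ≤ k) (ha : 3 ≤ a i) (hb : 2 ≤ deg k b) :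
    Bt ρ k a b i := by
  obtain ⟨F0, _, F3, F4, _, F6⟩ := hfaa ρ hc
  have hda : 3 ≤ deg k a := le_trans ha (le_deg' hi)
  by_cases hmax : (sp k a).max = (i : WithBot ℕ) ∧ (sp k b).max = (i : WithBot ℕ)
  swap
  · exact F0 k a b i (by omega) hb hi hmax
  by_cases hb2 : 2 ≤ b i
  · exact F6 hr k a b i hi (by omega) hb2
  have hbi : b i ≠ 0 := (mem_sp'.1 (Finset.mem_of_max hmax.2)).2
  have hbi1 : b i = 1 := by omega
  obtain ⟨j, hj, hbj⟩ := other hmax.2 hb hbi1
  have hf := bmap_tb (k := k) hj.le hi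
  have h1 := F4 1 k (tb j i) (v2 0 3) (v2 1 1) 1 hf (by rw [deg_v2]; omega) (by rw [deg_v2])
    (le_refl 1) (sp_v2_max 0 3 (by omega)) (sp_v2_max 1 1 (by omega)) (base_bt hc h3)
  have e1 : tb j i 1 = i := by simp [tb]
  rw [e1] at h1
  have hA : ∀ t, psh 1 (tb j i) (v2 0 3) t = if t = i then 3 else 0 := by
    intro t
    rw [psh_tb]
    simp
  have hB : ∀ t, psh 1 (tb j i) (v2 1 1) t = (if t = j then 1 else 0) + (if t = i then 1 else 0) :=
    fun t => psh_tb j i 1 1 t
  have hsA : i ∈ sp k (psh 1 (tb j i) (v2 0 3)) := by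
    rw [mem_sp', hA, if_pos rfl]
    exact ⟨hi, by omega⟩
  have hmA : (sp k (psh 1 (tb j i) (v2 0 3))).max = (i : WithBot ℕ) := by
    apply max_of hsA
    intro t ht
    have h2 := (mem_sp'.1 ht).2
    rw [hA] at h2
    by_cases hti : t = i
    · omega
    · rw [if_neg hti] at h2
      exact absurd rfl h2
  have hsB : i ∈ sp k (psh 1 (tb j i) (v2 1 1)) := by
    rw [mem_sp', hB, if_pos rfl]
    exact ⟨hi, by omega⟩
  have hmB : (sp k (psh 1 (tb j i) (v2 1 1))).max = (i : WithBot ℕ) := by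
    apply max_of hsB
    intro t ht
    have h2 := (mem_sp'.1 ht).2
    rw [hB] at h2
    by_cases hti : t = i
    · omega
    · by_cases htj : t = j
      · omega
      · rw [if_neg hti, if_neg htj] at h2
        exact absurd rfl h2
  have hdA : 2 ≤ deg k (psh 1 (tb j i) (v2 0 3)) := by
    have h2 := le_deg' (k := k) (a := psh 1 (tb j i) (v2 0 3)) hi
    rw [hA, if_pos rfl] at h2
    omega
  have hdB : 2 ≤ deg k (psh 1 (tb j i) (v2 1 1)) := by
    have hne : j ≠ i := by omega
    have h2 : ∑ t ∈ ({j, i} : Finset ℕ), psh 1 (tb j i) (v2 1 1) t ≤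
        deg k (psh 1 (tb j i) (v2 1 1)) := by
      unfold deg
      apply Finset.sum_le_sum_of_subset
      intro t ht
      rw [Finset.mem_insert, Finset.mem_singleton] at ht
      rw [Finset.mem_range]
      omega
    rw [Finset.sum_pair hne, hB, hB, if_pos rfl, if_neg hne, if_neg (fun h => hne h.symm),
      if_pos rfl] at h2
    omega
  have h2 := F3 k (psh 1 (tb j i) (v2 0 3)) (psh 1 (tb j i) (v2 1 1))
    (fun t => a t - psh 1 (tb j i) (v2 0 3) t) (fun t => b t - psh 1 (tb j i) (v2 1 1) t) i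
    hdA hdB hi hmA hmB h1
  have ea : (fun t => psh 1 (tb j i) (v2 0 3) t + (a t - psh 1 (tb j i) (v2 0 3) t)) = a := by
    funext t
    rw [hA]
    by_cases hti : t = i
    · rw [if_pos hti, hti]
      omega
    · rw [if_neg hti]
      omega
  have eb : (fun t => psh 1 (tb j i) (v2 1 1) t + (b t - psh 1 (tb j i) (v2 1 1) t)) = b := by
    funext t
    rw [hB]
    by_cases hti : t = i
    · rw [if_pos hti, hti, if_neg (by omega)]
      omega
    · rw [if_neg hti]
      by_cases htj : t = j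
      · rw [if_pos htj, htj]
        omega
      · rw [if_neg htj]
        omega
  rw [ea, eb] at h2
  exact h2

/-! ### representatives -/

/-- the representative of a profile `P` with maximum `m` in degree `d` -/
def rp (P : Finset ℕ) (m d : ℕ) : ℕ → ℕ :=
  fun j => (if j ∈ P then 1 else 0) + (if j = m then d - P.card else 0)

theorem deg_rp {k m d : ℕ} {P : Finset ℕ} (hP : P ⊆ Finset.range (k + 1)) (hm : m ∈ P)
    (hd : P.card ≤ d) : deg k (rp P m d) = d := by
  unfold deg rp
  rw [Finset.sum_add_distrib, Finset.sum_ite_eq', if_pos (hP hm), Finset.sum_ite_mem,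
    Finset.inter_eq_right.2 hP, Finset.sum_const, smul_eq_mul, mul_one]
  omega

theorem sp_rp {k m d : ℕ} {P : Finset ℕ} (hP : P ⊆ Finset.range (k + 1)) (hm : m ∈ P) :
    sp k (rp P m d) = P := by
  ext j
  rw [mem_sp']
  unfold rp
  constructor
  · rintro ⟨_, h⟩
    by_contra hj
    rw [if_neg hj, if_neg (fun h1 => hj (by rw [h1]; exact hm))] at h
    exact h rfl
  · intro hj
    have := Finset.mem_range.1 (hP hj)
    rw [if_pos hj]
    exact ⟨by omega, by omega⟩

theorem pr_rp {k m d : ℕ} {P : Finset ℕ} (hP : P ⊆ Finset.range (k + 1)) (hm : m ∈ P)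
    (hmax : ∀ j ∈ P, j ≤ m) : pr k (rp P m d) = P := by
  unfold pr
  rw [sp_rp hP hm]
  apply Finset.filter_true_of_mem
  intro j hj i hij
  have := hmax j hj
  unfold rp
  rw [if_neg (by omega : ¬ i = m)]
  by_cases h : i ∈ P
  · rw [if_pos h]
  · rw [if_neg h]
    omega

theorem pr_sub_sp {k : ℕ} {a : ℕ → ℕ} : pr k a ⊆ sp k a := Finset.filter_subset _ _

theorem pr_sub_range {k : ℕ} {a : ℕ → ℕ} : pr k a ⊆ Finset.range (k + 1) :=
  pr_sub_sp.trans (Finset.filter_subset _ _)

theorem card_sp_le {k : ℕ} {a : ℕ → ℕ} : (sp k a).card ≤ deg k a := by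
  unfold sp deg
  rw [Finset.card_filter]
  apply Finset.sum_le_sum
  intro j _
  by_cases h : a j ≠ 0
  · rw [if_pos h]
    omega
  · rw [if_neg h]
    omega

theorem card_pr_le {k : ℕ} {a : ℕ → ℕ} : (pr k a).card ≤ deg k a :=
  (Finset.card_le_card pr_sub_sp).trans card_sp_le

theorem pr_nonempty {k : ℕ} {a : ℕ → ℕ} (h : 1 ≤ deg k a) : (pr k a).Nonempty := by
  have h1 : (sp k a).Nonempty := by
    by_contra h0
    rw [Finset.not_nonempty_iff_eq_empty] at h0
    have h2 : deg k a = 0 := by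
      unfold deg
      apply Finset.sum_eq_zero
      intro j hj
      rw [Finset.mem_range] at hj
      by_contra h3
      have h4 : j ∈ sp k a := mem_sp'.2 ⟨by omega, h3⟩
      rw [h0] at h4
      exact absurd h4 (Finset.notMem_empty j)
    omega
  refine ⟨(sp k a).min' h1, ?_⟩
  unfold pr
  rw [Finset.mem_filter]
  refine ⟨Finset.min'_mem _ h1, ?_⟩
  intro i hi
  by_contra h2
  have h3 : (sp k a).min' h1 ≤ i := by
    apply Finset.min'_le
    have h4 := (mem_sp'.1 (Finset.min'_mem _ h1)).1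
    exact mem_sp'.2 ⟨by omega, by omega⟩
  omega

theorem exists_max {P : Finset ℕ} (h : P.Nonempty) : ∃ m ∈ P, ∀ j ∈ P, j ≤ m :=
  ⟨P.max' h, Finset.max'_mem P h, fun j hj => Finset.le_max' P j hj⟩

theorem tr_eq_self {P : Finset ℕ} {m : ℕ} (h : P.card ≤ m) : tr m P = P := by
  unfold tr
  apply Finset.filter_true_of_mem
  intro j hj
  have h1 : (P.filter (fun i => i < j)) ⊂ P := by
    rw [Finset.filter_ssubset]
    exact ⟨j, hj, by omega⟩
  have h2 := Finset.card_lt_card h1
  omega

theorem tr_ne {P P' : Finset ℕ} {m l : ℕ} (h : P.card ≤ m) (hne : P ≠ P') (hl : l ∈ P)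
    (hl' : ∀ j ∈ P', j ≤ l) : tr m P ≠ tr m P' := by
  intro he
  rw [tr_eq_self h] at he
  have h1 : l ∈ tr m P' := by
    rw [← he]
    exact hl
  have h2 : (P'.filter (fun i => i < l)).card < m := (Finset.mem_filter.1 h1).2
  have h3 : tr m P' = P' := by
    unfold tr
    apply Finset.filter_true_of_mem
    intro j hj
    have h4 : P'.filter (fun i => i < j) ⊆ P'.filter (fun i => i < l) := by
      intro i hi
      rw [Finset.mem_filter] at hi ⊢
      have := hl' j hj
      exact ⟨hi.1, by omega⟩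
    exact lt_of_le_of_lt (Finset.card_le_card h4) h2
  exact hne (he.trans h3)

theorem tr_top {P : Finset ℕ} {l : ℕ} (hl : l ∈ P) (hmax : ∀ j ∈ P, j ≤ l) :
    l ∉ tr (P.card - 1) P := by
  intro h
  have h1 : (P.filter (fun i => i < l)).card < P.card - 1 := (Finset.mem_filter.1 h).2
  have h2 : P.filter (fun i => i < l) = P.erase l := by
    ext j
    rw [Finset.mem_filter, Finset.mem_erase]
    constructor
    · rintro ⟨h3, h4⟩
      exact ⟨by omega, h3⟩
    · rintro ⟨h3, h4⟩
      have := hmax j h4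
      exact ⟨h4, by omega⟩
  rw [h2, Finset.card_erase_of_mem hl] at h1
  omega

theorem tr_nonempty {P : Finset ℕ} {m : ℕ} (h : P.Nonempty) (hm : 1 ≤ m) : (tr m P).Nonempty := by
  refine ⟨P.min' h, ?_⟩
  unfold tr
  rw [Finset.mem_filter]
  refine ⟨Finset.min'_mem P h, ?_⟩
  have h1 : P.filter (fun i => i < P.min' h) = ∅ := by
    apply Finset.filter_false_of_mem
    intro j hj
    have := Finset.min'_le P j hj
    omega
  rw [h1, Finset.card_empty]
  omega

theorem tr_sub {P : Finset ℕ} {m : ℕ} : tr m P ⊆ P := Finset.filter_subset _ _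

theorem rp_rel (hoca : OcaStmt) {R : FC} (h3 : O3 R) {k m : ℕ} {a : ℕ → ℕ}
    (hm : m ∈ pr k a) (hmax : ∀ j ∈ pr k a, j ≤ m) : R.R k a (rp (pr k a) m (deg k a)) := by
  apply hoca R k _ _ h3
  · rw [deg_rp pr_sub_range hm card_pr_le]
  · rw [pr_rp pr_sub_range hm hmax]

/-- the main step -/
theorem main (hoca : OcaStmt) (hocr : OcrStmt) (hfaa : FaaStmt) {ρ : FIC} (hc : ClA ρ)
    (hr : R0 ρ) (h3 : O3 (FC.ofFIC ρ)) {k : ℕ} {a a' : ℕ → ℕ} (hd : 2 ≤ deg k a)
    (hdd : deg k a = deg k a') (h1 : L1 ρ k a a') (hpr : pr k a ≠ pr k a') (b : ℕ → ℕ)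
    (hb : 2 ≤ deg k b) (i : ℕ) (hi : i ≤ k) : Bt ρ k a b i := by
  have Z0 := fun {a b : ℕ → ℕ} => z0 hfaa hc hr h3 (k := k) (a := a) (b := b) (i := i) hi
  obtain ⟨F0, F2, _, _, F5, F6⟩ := hfaa ρ hc
  by_cases hmax : (sp k a).max = (i : WithBot ℕ) ∧ (sp k b).max = (i : WithBot ℕ)
  swap
  · exact F0 k a b i hd hb hi hmax
  obtain ⟨hma, hmb⟩ := hmax
  have far : ∀ (c : ℕ → ℕ) (m : ℕ), 2 ≤ deg k c → (sp k c).max = (m : WithBot ℕ) → m ≠ i →
      L1 ρ k a c → Bt ρ k a b i := by
    intro c m hdc hmc hmi hac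
    refine F2 k a c b i hac (F0 k c b i hdc hb hi ?_)
    rintro ⟨h4, _⟩
    rw [hmc] at h4
    exact hmi (WithBot.coe_inj.1 h4)
  obtain ⟨m, hm, hmm⟩ := exists_max (pr_nonempty (k := k) (a := a) (by omega))
  obtain ⟨m', hm', hmm'⟩ := exists_max (pr_nonempty (k := k) (a := a') (by omega))
  have hra : L1 ρ k a (rp (pr k a) m (deg k a)) := rp_rel hoca h3 hm hmm
  have hra' : L1 ρ k a' (rp (pr k a') m' (deg k a')) := rp_rel hoca h3 hm' hmm'
  by_cases hmi : m = i
  swap
  · refine far _ m ?_ ?_ hmi hra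
    · rw [deg_rp pr_sub_range hm card_pr_le]
      exact hd
    · rw [sp_rp pr_sub_range hm]
      exact max_of hm hmm
  by_cases hmi' : m' = i
  swap
  · refine far _ m' ?_ ?_ hmi' (rr_trans h1 hra')
    · rw [deg_rp pr_sub_range hm' card_pr_le]
      omega
    · rw [sp_rp pr_sub_range hm']
      exact max_of hm' hmm'
  subst hmi
  subst hmi'
  obtain ⟨C1, C2, _, C4, _⟩ := hocr (FC.ofFIC ρ) k a a' h3 hd hdd h1 hpr
  by_cases hcard : 3 ≤ (pr k a).card
  · have hJ := C1 (pr k a).card hcard (tr_ne (le_refl _) hpr hm hmm') (Or.inl (le_refl _))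
    obtain ⟨q, hq, hqq⟩ := exists_max (tr_nonempty (P := pr k a) (m := (pr k a).card - 1)
      ⟨_, hm⟩ (by omega))
    have hsub : tr ((pr k a).card - 1) (pr k a) ⊆ Finset.range (k + 1) :=
      tr_sub.trans pr_sub_range
    have hcd : (tr ((pr k a).card - 1) (pr k a)).card ≤ deg k a :=
      (Finset.card_le_card tr_sub).trans card_pr_le
    have h5 := hJ k a (rp (tr ((pr k a).card - 1) (pr k a)) q (deg k a)) rfl
      (deg_rp hsub hq hcd) rfl (pr_rp hsub hq hqq)
    refine far _ q ?_ ?_ ?_ h5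
    · rw [deg_rp hsub hq hcd]
      exact hd
    · rw [sp_rp hsub hq]
      exact max_of hq hqq
    · intro h6
      rw [h6] at hq
      exact tr_top hm hmm hq
  have htr : tr 2 (pr k a) ≠ tr 2 (pr k a') := tr_ne (by omega) hpr hm hmm'
  have hcases : pr k a = {m'} ∨ ∃ p, p < m' ∧ pr k a = {p, m'} := by
    have hc1 : 1 ≤ (pr k a).card := Finset.card_pos.2 ⟨_, hm⟩
    by_cases hc2 : (pr k a).card = 1
    · left
      obtain ⟨x, hx⟩ := Finset.card_eq_one.1 hc2
      rw [hx] at hm ⊢
      rw [Finset.mem_singleton.1 hm]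
    · right
      have hc3 : ((pr k a).erase m').card = 1 := by
        rw [Finset.card_erase_of_mem hm]
        omega
      obtain ⟨x, hx⟩ := Finset.card_eq_one.1 hc3
      have hx1 : x ∈ (pr k a).erase m' := by
        rw [hx]
        exact Finset.mem_singleton_self x
      have hx2 := Finset.mem_erase.1 hx1
      have hx3 := hmm x hx2.2
      have hx4 := hx2.1
      refine ⟨x, by omega, ?_⟩
      rw [← Finset.insert_erase hm, hx, Finset.pair_comm]
  have hik : m' ≤ k := hi
  -- the two vectors of a pushed pair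
  have hpush : ∀ (p u v u' v' : ℕ), p < m' → (FC.ofFIC ρ).R 1 (v2 u v) (v2 u' v') →
      (FC.ofFIC ρ).R k (fun j => (if j = p then u else 0) + (if j = m' then v else 0))
        (fun j => (if j = p then u' else 0) + (if j = m' then v' else 0)) := by
    intro p u v u' v' hp hR
    refine (FC.ofFIC ρ).ext ?_ ?_ ((FC.ofFIC ρ).push k (tb p m') (bmap_tb hp.le hik) hR)
    · intro j _
      exact psh_tb p m' u v j
    · intro j _
      exact psh_tb p m' u' v' j
  have hpair : ∀ p, p < m' → pr k a = {p, m'} → (FC.ofFIC ρ).R k a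
      (fun j => (if j = p then 1 else 0) + (if j = m' then deg k a - 1 else 0)) := by
    intro p hp hP
    refine (FC.ofFIC ρ).ext (fun _ _ => rfl) ?_ hra
    intro j _
    have hc2 : (pr k a).card = 2 := by
      rw [hP]
      exact Finset.card_pair (by omega)
    unfold rp
    rw [hc2, hP]
    by_cases hjm : j = m'
    · rw [if_pos hjm, if_pos hjm, if_pos (by rw [hjm]; simp), if_neg (by omega)]
      omega
    · rw [if_neg hjm, if_neg hjm]
      by_cases hjp : j = p
      · rw [if_pos hjp, if_pos (by rw [hjp]; simp)]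
      · rw [if_neg hjp, if_neg]
        rw [Finset.mem_insert, Finset.mem_singleton]
        omega
  have hmin' : ∀ {P : Finset ℕ}, P.card = 1 → m' ∈ P → P = {m'} := by
    intro P hP hmP
    obtain ⟨x, hx⟩ := Finset.card_eq_one.1 hP
    rw [hx] at hmP ⊢
    rw [Finset.mem_singleton.1 hmP]
  by_cases hmin : (pr k a).min = (pr k a').min
  · have hA := C2 hmin htr
    rcases hcases with hP | ⟨p, hp, hP⟩
    · exfalso
      apply hpr
      rw [hP]
      rw [hP, Finset.min_singleton] at hmin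
      ext j
      rw [Finset.mem_singleton]
      constructor
      · intro hj
        rw [hj]
        exact hm'
      · intro hj
        have h5 := Finset.min_le hj
        rw [← hmin] at h5
        have h6 := WithTop.coe_le_coe.1 h5
        have h7 := hmm' j hj
        omega
    · have h5 := hpush p (deg k a) 0 1 (deg k a - 1) hp hA
      have h6 := rr_trans (hpair p hp hP) (RR.symm h5)
      have hdeg : deg k (fun j => (if j = p then deg k a else 0) + (if j = m' then 0 else 0)) =
          deg k a := by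
        have e : (fun j => (if j = p then deg k a else 0) + (if j = m' then 0 else 0)) =
            fun j => if j = p then deg k a else 0 := by
          funext j
          simp
        rw [e]
        unfold deg
        rw [Finset.sum_ite_eq', if_pos (Finset.mem_range.2 (by omega))]
      refine far _ p (by rw [hdeg]; exact hd) ?_ (by omega) h6
      apply max_of
      · rw [mem_sp']
        refine ⟨by omega, ?_⟩
        rw [if_pos rfl]
        omega
      · intro j hj
        have h7 := (mem_sp'.1 hj).2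
        by_cases hjp : j = p
        · omega
        · rw [if_neg hjp] at h7
          simp at h7
  · have hB := C4 hmin (by
      rintro ⟨h5, h6⟩
      exact hpr ((hmin' h5 hm).trans (hmin' h6 hm').symm))
    -- `a` is related to `d` copies in the last block
    have hsg : L1 ρ k a (sg m' (deg k a)) := by
      rcases hcases with hP | ⟨p, hp, hP⟩
      · refine (FC.ofFIC ρ).ext (fun _ _ => rfl) ?_ hra
        intro j _
        have hc2 : (pr k a).card = 1 := by
          rw [hP]
          exact Finset.card_singleton _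
        unfold rp sg
        rw [hc2, hP]
        by_cases hjm : j = m'
        · rw [if_pos hjm, if_pos hjm, if_pos (by rw [hjm]; simp)]
          omega
        · rw [if_neg hjm, if_neg hjm, if_neg]
          rw [Finset.mem_singleton]
          exact hjm
      · have h5 := hpush p 0 (deg k a) 1 (deg k a - 1) hp hB
        have h6 := rr_trans (hpair p hp hP) (RR.symm h5)
        refine (FC.ofFIC ρ).ext (fun _ _ => rfl) ?_ h6
        intro j _
        unfold sg
        simp
    by_cases hd3 : 3 ≤ deg k a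
    · refine F2 k a _ b m' hsg (Z0 ?_ hb)
      unfold sg
      rw [if_pos rfl]
      exact hd3
    have hd2 : deg k a = 2 := by omega
    rw [hd2] at hsg hB
    refine F2 k a _ b m' hsg ?_
    have hsgi : 2 ≤ sg m' 2 m' := by
      unfold sg
      rw [if_pos rfl]
    by_cases hb2 : 2 ≤ b m'
    · exact F6 hr k _ b m' hi hsgi hb2
    have hbi : b m' ≠ 0 := (mem_sp'.1 (Finset.mem_of_max hmb)).2
    obtain ⟨j, hj, hbj⟩ := other hmb hb (by omega)
    have h5 := hpush j 0 2 1 1 hj hB
    have h6 := (FC.ofFIC ρ).add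
      (fun t => b t - ((if t = j then 1 else 0) + (if t = m' then 1 else 0))) h5
    have h7 : L1 ρ k b (fun t => (if t = j then 0 else 0) + (if t = m' then 2 else 0) +
        (b t - ((if t = j then 1 else 0) + (if t = m' then 1 else 0)))) := by
      refine (FC.ofFIC ρ).ext ?_ (fun _ _ => rfl) ((FC.ofFIC ρ).symm h6)
      intro t _
      by_cases htm : t = m'
      · rw [if_pos htm, if_neg (by omega), htm]
        omega
      · rw [if_neg htm]
        by_cases htj : t = j
        · rw [if_pos htj, htj]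
          omega
        · rw [if_neg htj]
          omega
    have h8 := F6 hr k (sg m' 2) (fun t => (if t = j then 0 else 0) + (if t = m' then 2 else 0) +
        (b t - ((if t = j then 1 else 0) + (if t = m' then 1 else 0)))) m' hi hsgi (by
          rw [if_pos rfl, if_neg (by omega)]
          omega)
    exact F5 k _ _ m' (F2 k b _ _ m' h7 (F5 k _ _ m' h8))

end TacRow

/-- **TAC** -/
theorem tac (hoca : OcaStmt) (hocr : OcrStmt) (hfaa : FaaStmt) : TacStmt := by
  intro β hcl hr0 h3 ρ hle _ k a a' hd hdd h1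
  by_cases hL : L1 β k a a'
  · exact Or.inl hL
  right
  intro b e hb i hi
  have hpr : pr k a ≠ pr k a' := fun hpr => hL (hoca (FC.ofFIC β) k a a' h3 hdd hpr)
  exact TacRow.main hoca hocr hfaa (TacRow.clA_mono hle hcl) (TacRow.rr_mono hle hr0)
    (TacRow.rr_mono hle h3) hd hdd h1 hpr b hb i hi e

end Pool.Agent.MVO.H65
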