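import Mathlib
import Pool.Agent.MVO.StmtsN

set_option autoImplicit false

/-! Row NRA of the squad MVO: the identity `x²y² ≈ y²x²` is necessary in class a. -/

namespace Pool.Agent.MVO.H65

open Pool.Agent.Helper14_MV Pool.Agent.Helper2_MV Pool.Agent.MVO

namespace NraRow

theorem nc2_of_iso3 {β : FIC} (h : Iso3 β) : NC2 β := by
  intro h1
  have h2 : RR β [0, 1, 0] [1, 0, 0] := h1.append (RR.refl [0])
  have h3 := h _ h2
  simp at h3

theorem toList_ctx (φ : Word →* Word) (m q : Word) (l : List ℕ) :
    (m * φ (FreeMonoid.ofList l) * q).toList =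
      m.toList ++ (l.flatMap (fun i => (φ (FreeMonoid.of i)).toList) ++ q.toList) := by
  rw [FreeMonoid.toList_mul, FreeMonoid.toList_mul, toList_hom, List.append_assoc]
  rfl

/-- counts up to two are preserved -/
theorem count_rr {β : FIC} (hβ : β ≤ thC3) {l l' : List ℕ} (h : RR β l l') {i : ℕ}
    (hi : l.count i ≤ 2) : l'.count i = l.count i := by
  have h1 := cnt_thC3 (hβ _ _ h) (i := i) (by
    unfold cnt
    simpa using hi)
  unfold cnt at h1
  simpa using h1

theorem count_mw (k : ℕ) (a : ℕ → ℕ) : (mw k a).count 0 = deg k a := by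
  unfold mw
  rw [count_asm (by unfold NS; omega)]
  simp

theorem deg_l1 {β : FIC} (hβ : β ≤ thC3) {k : ℕ} {a a' : ℕ → ℕ} (h : L1 β k a a')
    (hd : deg k a ≤ 2) : deg k a' = deg k a := by
  have h1 := count_rr hβ h (i := 0) (by rw [count_mw]; exact hd)
  rw [count_mw, count_mw] at h1
  exact h1

theorem deg1 (a : ℕ → ℕ) : deg 1 a = a 0 + a 1 := by
  unfold deg
  rw [Finset.sum_range_succ, Finset.sum_range_succ, Finset.sum_range_zero, Nat.zero_add]

theorem asm1 (B : ℕ → List ℕ) : asm 1 B = B 0 ++ 2 :: B 1 := rfl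

theorem l1_congr {β : FIC} {k : ℕ} {a a' b b' : ℕ → ℕ} (h : L1 β k a b)
    (ha : ∀ j ≤ k, a j = a' j) (hb : ∀ j ≤ k, b j = b' j) : L1 β k a' b' :=
  (FC.ofFIC β).ext ha hb h

/-- `(0,2) ~ (2,0)` gives `R0` -/
theorem r0_of {β : FIC} (h : L1 β 1 (v2 0 2) (v2 2 0)) : R0 β := by
  have h1 : RR β [2, 0, 0] [0, 0, 2] := h
  have h2 : RR β [1, 1, 0, 0] [0, 0, 1, 1] :=
    h1.sub (fun c => if c = 2 then [1, 1] else [c])
  exact h2.symm

/-- merging the blocks -/
theorem r0_of_bt {β : FIC} (hfaa : FaaStmt) (hc : ClA β) {a b : ℕ → ℕ} (ha : deg 1 a = 2)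
    (hb : deg 1 b = 2) (ha1 : 1 ≤ a 1) (hb1 : 1 ≤ b 1) (h : Bt β 1 a b 1) : R0 β := by
  obtain ⟨_, _, _, F4, _, _⟩ := hfaa β hc
  have hmax : ∀ {c : ℕ → ℕ}, 1 ≤ c 1 → (sp 1 c).max = ((1 : ℕ) : WithBot ℕ) := by
    intro c hc1
    apply le_antisymm
    · apply Finset.max_le
      intro j hj
      unfold sp at hj
      rw [Finset.mem_filter, Finset.mem_range] at hj
      exact WithBot.coe_le_coe.2 (by omega)
    · apply Finset.le_max
      unfold sp
      rw [Finset.mem_filter, Finset.mem_range]
      exact ⟨by omega, Nat.one_le_iff_ne_zero.1 hc1⟩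
  have h1 := F4 1 0 (fun _ => 0) a b 1 ⟨fun _ _ _ _ => le_refl 0, fun _ _ => le_refl 0⟩
    (by omega) (by omega) (le_refl 1) (hmax ha1) (hmax hb1) h
  have h2 := h1 (fun _ => false)
  have e : ∀ c : ℕ → ℕ, deg 1 c = 2 → psh 1 (fun _ => 0) c 0 = 2 := by
    intro c hc
    unfold psh
    rw [Finset.sum_range_succ, Finset.sum_range_succ, Finset.sum_range_zero, Nat.zero_add,
      if_pos rfl, if_pos rfl, ← deg1, hc]
  have h3 : RR β (bl (psh 1 (fun _ => 0) a 0) (psh 1 (fun _ => 0) b 0) false)
      (bl (psh 1 (fun _ => 0) a 0) (psh 1 (fun _ => 0) b 0) true) := h2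
  rw [e a ha, e b hb] at h3
  exact h3

/-! ### the first congruence -/

/-- `(1,1)`, `(0,2)` -/
def T1 (a b : ℕ → ℕ) : Prop := (∀ j ≤ 1, a j = v2 1 1 j) ∧ ∀ j ≤ 1, b j = v2 0 2 j

/-- both letters occur twice, and in block 1 -/
def T2 (a b : ℕ → ℕ) : Prop := deg 1 a = 2 ∧ deg 1 b = 2 ∧ 1 ≤ a 1 ∧ 1 ≤ b 1

theorem t1_t2 {a b : ℕ → ℕ} (h : T1 a b) : T2 a b := by
  obtain ⟨h1, h2⟩ := h
  have e0 := h1 0 (by omega)
  have e1 := h1 1 (by omega)
  have e2 := h2 0 (by omega)
  have e3 := h2 1 (by omega)
  have f0 : v2 1 1 0 = 1 := rfl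
  have f1 : v2 1 1 1 = 1 := rfl
  have f2 : v2 0 2 0 = 0 := rfl
  have f3 : v2 0 2 1 = 2 := rfl
  refine ⟨?_, ?_, ?_, ?_⟩
  · rw [deg1]; omega
  · rw [deg1]; omega
  · omega
  · omega

theorem text1 : TExt 1 T1 := by
  intro a a' b b' h h' ht
  exact ⟨fun j hj => by rw [← h j hj]; exact ht.1 j hj,
    fun j hj => by rw [← h' j hj]; exact ht.2 j hj⟩

theorem text2 : TExt 1 T2 := by
  intro a a' b b' h h' ht
  unfold T2 at ht ⊢
  rw [deg1, deg1, ← h 0 (by omega), ← h 1 (by omega), ← h' 0 (by omega), ← h' 1 (by omega),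
    ← deg1, ← deg1]
  exact ht

theorem sp_max {c : ℕ → ℕ} (hc1 : 1 ≤ c 1) : (sp 1 c).max = ((1 : ℕ) : WithBot ℕ) := by
  apply le_antisymm
  · apply Finset.max_le
    intro j hj
    unfold sp at hj
    rw [Finset.mem_filter, Finset.mem_range] at hj
    exact WithBot.coe_le_coe.2 (by omega)
  · apply Finset.le_max
    unfold sp
    rw [Finset.mem_filter, Finset.mem_range]
    exact ⟨by omega, Nat.one_le_iff_ne_zero.1 hc1⟩

theorem tlast2 : TLast 1 1 T2 := by
  intro a b h
  exact ⟨h.1.ge, h.2.1.ge, sp_max h.2.2.1, sp_max h.2.2.2⟩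

theorem tlast1 : TLast 1 1 T1 := fun a b h => tlast2 a b (t1_t2 h)

/-- a word of `QT 1 T1` does not contain two squares next to each other -/
theorem no_sq {w : Word} (h : QT 1 T1 w) {A z z' q : List ℕ}
    (hw : w.toList = A ++ (z ++ (z ++ (z' ++ (z' ++ q))))) : z = [] ∨ z' = [] := by
  obtain ⟨B, hB, hlet, ⟨ha, hb⟩, _⟩ := h
  have hlen : ∀ j ≤ 1, (B j).length = (B j).count 0 + (B j).count 1 := by
    intro j hj
    have : ∀ l : List ℕ, (∀ c ∈ l, c = 0 ∨ c = 1) → l.length = l.count 0 + l.count 1 := by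
      intro l
      induction l with
      | nil => intro _; rfl
      | cons c l ih =>
        intro hl
        have h1 := ih (fun d hd => hl d (List.mem_cons_of_mem _ hd))
        rcases hl c (List.mem_cons_self ..) with h2 | h2
        · subst h2
          rw [List.length_cons, List.count_cons_self, List.count_cons_of_ne (by omega), h1]
          omega
        · subst h2
          rw [List.length_cons, List.count_cons_self, List.count_cons_of_ne (by omega), h1]
          omega
    exact this _ (hlet j hj)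
  have l0 : (B 0).length = 1 := by
    rw [hlen 0 (by omega)]
    have e0 : (B 0).count 0 = 1 := ha 0 (by omega)
    have e1 : (B 0).count 1 = 0 := hb 0 (by omega)
    omega
  have l1 : (B 1).length = 3 := by
    rw [hlen 1 (by omega)]
    have e0 : (B 1).count 0 = 1 := ha 1 (by omega)
    have e1 : (B 1).count 1 = 2 := hb 1 (by omega)
    omega
  obtain ⟨x0, hx0⟩ := List.length_eq_one_iff.1 l0
  obtain ⟨y1, y2, y3, hy⟩ := List.length_eq_three.1 l1
  have hxl := hlet 0 (by omega)
  have hyl := hlet 1 (by omega)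
  rw [hx0] at hxl
  rw [hy] at hyl
  have hx0' := hxl x0 (by simp)
  have hy1 := hyl y1 (by simp)
  rw [hB, asm1, hx0, hy] at hw
  by_contra hcon
  push Not at hcon
  obtain ⟨hz, hz'⟩ := hcon
  obtain ⟨c, z1, rfl⟩ := List.exists_cons_of_ne_nil hz
  obtain ⟨d, z2, rfl⟩ := List.exists_cons_of_ne_nil hz'
  have hl := congrArg List.length hw
  simp only [List.length_append, List.length_cons, List.length_nil] at hl
  have hz1 : z1 = [] := List.eq_nil_of_length_eq_zero (by omega)
  have hz2 : z2 = [] := List.eq_nil_of_length_eq_zero (by omega)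
  subst hz1
  subst hz2
  rcases A with _ | ⟨a0, A⟩
  · simp at hw
    omega
  · have hA : A = [] := List.eq_nil_of_length_eq_zero (by
      simp only [List.length_cons, List.length_nil] at hl
      omega)
    subst hA
    simp at hw
    omega

theorem bt1 : Bt (GT 1 T1) 1 (v2 0 2) (v2 0 2) 1 := by
  have key : RR (GT 1 T1) [2, 0, 0, 1, 1] [2, 1, 1, 0, 0] := by
    intro φ m q
    have e : (m * φ (FreeMonoid.ofList [2, 0, 0, 1, 1]) * q).toList =
        (m.toList ++ (φ (FreeMonoid.of 2)).toList) ++ ((φ (FreeMonoid.of 0)).toList ++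
          ((φ (FreeMonoid.of 0)).toList ++ ((φ (FreeMonoid.of 1)).toList ++
            ((φ (FreeMonoid.of 1)).toList ++ q.toList)))) := by
      rw [toList_ctx]
      simp
    have e' : (m * φ (FreeMonoid.ofList [2, 1, 1, 0, 0]) * q).toList =
        (m.toList ++ (φ (FreeMonoid.of 2)).toList) ++ ((φ (FreeMonoid.of 1)).toList ++
          ((φ (FreeMonoid.of 1)).toList ++ ((φ (FreeMonoid.of 0)).toList ++
            ((φ (FreeMonoid.of 0)).toList ++ q.toList)))) := by
      rw [toList_ctx]
      simp
    constructor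
    · intro h
      have h1 : m * φ (FreeMonoid.ofList [2, 0, 0, 1, 1]) * q =
          m * φ (FreeMonoid.ofList [2, 1, 1, 0, 0]) * q := by
        apply FreeMonoid.toList.injective
        rw [e, e']
        rcases no_sq h e with h2 | h2
        · rw [h2]
          simp
        · rw [h2]
          simp
      rw [← h1]
      exact h
    · intro h
      have h1 : m * φ (FreeMonoid.ofList [2, 0, 0, 1, 1]) * q =
          m * φ (FreeMonoid.ofList [2, 1, 1, 0, 0]) * q := by
        apply FreeMonoid.toList.injective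
        rw [e, e']
        rcases no_sq h e' with h2 | h2
        · rw [h2]
          simp
        · rw [h2]
          simp
      rw [h1]
      exact h
  intro e
  have hw : ∀ e : ℕ → Bool, w2 1 (v2 0 2) (v2 0 2) e =
      if e 1 then [2, 1, 1, 0, 0] else [2, 0, 0, 1, 1] := by
    intro e
    have h01 : bl 0 0 (e 0) = [] := by cases e 0 <;> rfl
    change bl 0 0 (e 0) ++ 2 :: bl 2 2 (e 1) = _
    rw [h01]
    cases e 1 <;> rfl
  unfold Ex
  rw [hw, hw]
  have hf : flp e 1 1 = !(e 1) := by simp [flp]
  rw [hf]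
  cases e 1
  · exact key
  · exact key.symm

/-! ### the second congruence -/

/-- the same as `QT 1 T2` -/
def C2 (w : List ℕ) : Prop :=
  (∀ c ∈ w, c ≤ 2) ∧ w.count 0 = 2 ∧ w.count 1 = 2 ∧ w.count 2 = 1 ∧
    (w.filter (fun c => decide (c = 0 ∨ c = 1))).getLast? = some 1 ∧
    List.Sublist [2, 0] w ∧ List.Sublist [2, 1] w

theorem sub2_append {x y : ℕ} {A B : List ℕ} : List.Sublist [x, y] (A ++ B) ↔
    List.Sublist [x, y] A ∨ (x ∈ A ∧ y ∈ B) ∨ List.Sublist [x, y] B := by
  rw [List.sublist_append_iff]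
  constructor
  · rintro ⟨l1, l2, h, h1, h2⟩
    rcases l1 with _ | ⟨a, _ | ⟨b, l1⟩⟩
    · right; right
      rw [List.nil_append] at h
      rw [h]
      exact h2
    · right; left
      simp only [List.cons_append, List.nil_append, List.cons.injEq] at h
      rw [← h.1] at h1
      rw [← h.2] at h2
      exact ⟨List.singleton_sublist.1 h1, List.singleton_sublist.1 h2⟩
    · left
      simp only [List.cons_append, List.cons.injEq] at h
      obtain ⟨h3, h4, h5⟩ := h
      have h6 : l1 = [] := by
        have := h5.symm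
        rw [List.append_eq_nil_iff] at this
        exact this.1
      rw [h3, h4]
      rw [h6] at h1
      exact h1
  · rintro (h | ⟨h1, h2⟩ | h)
    · exact ⟨[x, y], [], rfl, h, List.nil_sublist _⟩
    · exact ⟨[x], [y], rfl, List.singleton_sublist.2 h1, List.singleton_sublist.2 h2⟩
    · exact ⟨[], [x, y], rfl, List.nil_sublist _, h⟩

theorem sub2_mem {x y : ℕ} {A : List ℕ} (h : List.Sublist [x, y] A) : x ∈ A ∧ y ∈ A :=
  ⟨h.subset (by simp), h.subset (by simp)⟩

theorem qt2_iff {w : Word} : QT 1 T2 w ↔ C2 w.toList := by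
  constructor
  · rintro ⟨B, hB, hlet, ⟨ha, hb, ha1, hb1⟩, hlast⟩
    rw [deg1] at ha hb
    have h20 : (B 0).count 2 = 0 := List.count_eq_zero_of_not_mem (fun h => by
      have := hlet 0 (by omega) 2 h
      omega)
    have h21 : (B 1).count 2 = 0 := List.count_eq_zero_of_not_mem (fun h => by
      have := hlet 1 (by omega) 2 h
      omega)
    have m0 : (0 : ℕ) ∈ B 1 := List.count_pos_iff.1 ha1
    have m1 : (1 : ℕ) ∈ B 1 := List.count_pos_iff.1 hb1
    refine ⟨?_, ?_, ?_, ?_, hlast, ?_, ?_⟩
    · intro c hc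
      rw [hB, asm1, List.mem_append, List.mem_cons] at hc
      rcases hc with h | h | h
      · have := hlet 0 (by omega) c h
        omega
      · omega
      · have := hlet 1 (by omega) c h
        omega
    · rw [hB, asm1, List.count_append, List.count_cons_of_ne (by omega)]
      exact ha
    · rw [hB, asm1, List.count_append, List.count_cons_of_ne (by omega)]
      exact hb
    · rw [hB, asm1, List.count_append, List.count_cons_self, h20, h21]
    · rw [hB, asm1]
      exact List.Sublist.trans (List.Sublist.cons_cons 2 (List.singleton_sublist.2 m0))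
        (List.sublist_append_right _ _)
    · rw [hB, asm1]
      exact List.Sublist.trans (List.Sublist.cons_cons 2 (List.singleton_sublist.2 m1))
        (List.sublist_append_right _ _)
  · rintro ⟨hlet, h0, h1, h2, hlast, hs0, hs1⟩
    have hm : (2 : ℕ) ∈ w.toList := List.count_pos_iff.1 (by omega)
    obtain ⟨u, v, huv⟩ := List.append_of_mem hm
    have hcu : u.count 2 = 0 ∧ v.count 2 = 0 := by
      rw [huv, List.count_append, List.count_cons_self] at h2
      omega
    have hu : (2 : ℕ) ∉ u := List.count_eq_zero.1 hcu.1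
    have hv : (2 : ℕ) ∉ v := List.count_eq_zero.1 hcu.2
    have haft : ∀ x, x ≠ 2 → List.Sublist [2, x] w.toList → x ∈ v := by
      intro x hx h
      rw [huv, sub2_append] at h
      rcases h with h | h | h
      · exact absurd (sub2_mem h).1 hu
      · exact absurd h.1 hu
      · have h3 : List.Sublist [x] v := by
          cases h with
          | cons _ h => exact absurd (sub2_mem h).1 hv
          | cons_cons _ h => exact h
        exact List.singleton_sublist.1 h3
    have hmem : ∀ c ∈ u ++ v, c = 0 ∨ c = 1 := by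
      intro c hc
      have h3 : c ≤ 2 := hlet c (by
        rw [huv]
        rw [List.mem_append] at hc
        rcases hc with h | h
        · exact List.mem_append_left _ h
        · exact List.mem_append_right _ (List.mem_cons_of_mem _ h))
      have h4 : c ≠ 2 := by
        intro h5
        rw [h5, List.mem_append] at hc
        rcases hc with h | h
        · exact hu h
        · exact hv h
      omega
    refine ⟨fun j => if j = 0 then u else v, ?_, ?_, ?_, hlast⟩
    · rw [asm1]
      exact huv
    · intro j _ c hc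
      by_cases hj : j = 0
      · have hc : c ∈ (if j = 0 then u else v) := hc
        rw [if_pos hj] at hc
        exact hmem c (List.mem_append_left _ hc)
      · have hc : c ∈ (if j = 0 then u else v) := hc
        rw [if_neg hj] at hc
        exact hmem c (List.mem_append_right _ hc)
    · rw [huv, List.count_append, List.count_cons_of_ne (by omega)] at h0 h1
      refine ⟨?_, ?_, ?_, ?_⟩
      · rw [deg1]
        exact h0
      · rw [deg1]
        exact h1
      · exact List.count_pos_iff.2 (haft 0 (by omega) hs0)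
      · exact List.count_pos_iff.2 (haft 1 (by omega) hs1)

theorem c2_iff (m s z q : List ℕ) :
    C2 (m ++ (s ++ (z ++ (z ++ q)))) ↔ C2 (m ++ (z ++ (s ++ (z ++ q)))) := by
  by_cases hz : z = []
  · rw [hz]
    simp
  have hcount : ∀ c, (m ++ (s ++ (z ++ (z ++ q)))).count c =
      (m ++ (z ++ (s ++ (z ++ q)))).count c := by
    intro c
    simp only [List.count_append]
    omega
  by_cases hlet : ∀ c ∈ m ++ (s ++ (z ++ (z ++ q))), c ≤ 2
  swap
  · constructor
    · intro h
      exact absurd h.1 hlet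
    · intro h
      exfalso
      apply hlet
      intro c hc
      apply h.1
      rw [← List.count_pos_iff] at hc ⊢
      rw [← hcount]
      exact hc
  by_cases h2 : (m ++ (s ++ (z ++ (z ++ q)))).count 2 = 1
  swap
  · constructor
    · intro h
      exact absurd h.2.2.2.1 h2
    · intro h
      exact absurd ((hcount 2).trans h.2.2.2.1) h2
  have hz2 : (2 : ℕ) ∉ z := by
    intro h
    have := List.count_pos_iff.2 h
    simp only [List.count_append] at h2
    omega
  have hlet' : ∀ c ∈ m ++ (z ++ (s ++ (z ++ q))), c ≤ 2 := by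
    intro c hc
    apply hlet
    rw [← List.count_pos_iff] at hc ⊢
    rw [hcount]
    exact hc
  have hfz : z.filter (fun c => decide (c = 0 ∨ c = 1)) ≠ [] := by
    obtain ⟨c, z', hc⟩ := List.exists_cons_of_ne_nil hz
    have hcz : c ∈ z := by
      rw [hc]
      exact List.mem_cons_self ..
    have h3 : c ≤ 2 := hlet c (by simp [hcz])
    have h4 : c ≠ 2 := fun h => hz2 (h ▸ hcz)
    have h5 : c ∈ z.filter (fun c => decide (c = 0 ∨ c = 1)) := by
      rw [List.mem_filter, decide_eq_true_iff]
      exact ⟨hcz, by omega⟩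
    intro h6
    rw [h6] at h5
    exact absurd h5 (List.not_mem_nil)
  have hlast : ((m ++ (s ++ (z ++ (z ++ q)))).filter
      (fun c => decide (c = 0 ∨ c = 1))).getLast? =
      ((m ++ (z ++ (s ++ (z ++ q)))).filter (fun c => decide (c = 0 ∨ c = 1))).getLast? := by
    have e1 : m ++ (s ++ (z ++ (z ++ q))) = (m ++ s ++ z) ++ (z ++ q) := by simp
    have e2 : m ++ (z ++ (s ++ (z ++ q))) = (m ++ z ++ s) ++ (z ++ q) := by simp
    have hne : (z ++ q).filter (fun c => decide (c = 0 ∨ c = 1)) ≠ [] := by
      rw [List.filter_append]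
      intro h
      rw [List.append_eq_nil_iff] at h
      exact hfz h.1
    obtain ⟨l, c, hlc⟩ : ∃ l c, (z ++ q).filter (fun c => decide (c = 0 ∨ c = 1)) = l ++ [c] := by
      rcases List.eq_nil_or_concat ((z ++ q).filter (fun c => decide (c = 0 ∨ c = 1))) with h | ⟨l, c, h⟩
      · exact absurd h hne
      · exact ⟨l, c, by rw [h, List.concat_eq_append]⟩
    rw [e1, e2, List.filter_append, List.filter_append (l₁ := m ++ z ++ s), hlc,
      ← List.append_assoc, ← List.append_assoc, List.getLast?_append, List.getLast?_append]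
    simp
  have hsub : ∀ x, List.Sublist [2, x] (m ++ (s ++ (z ++ (z ++ q)))) ↔
      List.Sublist [2, x] (m ++ (z ++ (s ++ (z ++ q)))) := by
    intro x
    have hzs : ¬ List.Sublist [2, x] z := fun h => hz2 (sub2_mem h).1
    simp only [sub2_append, List.mem_append]
    tauto
  unfold C2
  rw [hlast, hcount 0, hcount 1, hcount 2, hsub 0, hsub 1]
  constructor
  · rintro ⟨_, h⟩
    exact ⟨hlet', h⟩
  · rintro ⟨_, h⟩
    exact ⟨hlet, h⟩

theorem l12 : L1 (GT 1 T2) 1 (v2 0 2) (v2 1 1) := by
  have key : RR (GT 1 T2) [2, 0, 0] [0, 2, 0] := by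
    intro φ m q
    rw [qt2_iff, qt2_iff, toList_ctx, toList_ctx]
    have h := c2_iff m.toList (φ (FreeMonoid.of 2)).toList (φ (FreeMonoid.of 0)).toList q.toList
    simpa using h
  exact key

end NraRow

open NraRow in
/-- **NRA** -/
theorem nra (lnn : LnnStmt) (gtb : GtbStmt) (gtn : GtnStmt) (gaa : GaaStmt) (rga : RgaStmt)
    (_wbl : WblStmt) (iso : IsoStmt) (faa : FaaStmt) : NraStmt := by
  intro β hβ
  by_contra hR
  have hnc := nc2_of_iso3 hβ.iso
  -- the type of a related word of degree two which has an occurrence in block 1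
  have hcl : ∀ a a' : ℕ → ℕ, deg 1 a = 2 → 1 ≤ a 1 → L1 β 1 a a' → a' 0 = a 0 ∧ a' 1 = a 1 := by
    intro a a' hd h1 h
    have hd' := deg_l1 hβ.th h (by omega)
    rw [deg1] at hd hd'
    by_cases hc : a 1 = 1
    · have h2 := iso β hβ.th hβ.iso 1 a a' (by rw [deg1]; exact hd) (by
        intro j hj
        rcases (show j = 0 ∨ j = 1 by omega) with h3 | h3
        · subst h3; omega
        · subst h3; omega) h
      exact ⟨h2 0 (by omega), h2 1 (by omega)⟩
    · have hd'' : a' 0 + a' 1 = 2 := by
        rw [deg1] at hd'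
        omega
      by_cases hc' : a' 1 = 1
      · have h2 := iso β hβ.th hβ.iso 1 a' a (by rw [deg1]; exact hd'') (by
          intro j hj
          rcases (show j = 0 ∨ j = 1 by omega) with h3 | h3
          · subst h3; omega
          · subst h3; omega) ((FC.ofFIC β).symm h)
        exact ⟨(h2 0 (by omega)).symm, (h2 1 (by omega)).symm⟩
      · by_cases hc2 : a' 1 = 0
        · exfalso
          apply hR
          apply r0_of
          refine l1_congr h ?_ ?_
          · intro j hj
            rcases (show j = 0 ∨ j = 1 by omega) with h3 | h3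
            · subst h3
              have : v2 0 2 0 = 0 := rfl
              omega
            · subst h3
              have : v2 0 2 1 = 2 := rfl
              omega
          · intro j hj
            rcases (show j = 0 ∨ j = 1 by omega) with h3 | h3
            · subst h3
              have : v2 2 0 0 = 2 := rfl
              omega
            · subst h3
              have : v2 2 0 1 = 0 := rfl
              omega
        · constructor
          · omega
          · omega
  have hex : ∀ a b, T2 a b → ¬ Bt β 1 a b 1 := by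
    rintro a b ⟨h1, h2, h3, h4⟩ hb
    exact hR (r0_of_bt faa hβ.cl h1 h2 h3 h4 hb)
  have hG1 : β ≤ GT 1 T1 := by
    refine gtb β hβ.th hnc hβ.cl 1 1 T1 text1 tlast1 ?_ (fun a b h => hex a b (t1_t2 h))
    intro a b a' b' h ha hb
    obtain ⟨g1, g2, g3, g4⟩ := t1_t2 h
    have h1 := hcl a a' g1 g3 ha
    have h2 := hcl b b' g2 g4 hb
    refine text1 a a' b b' ?_ ?_ h
    · intro j hj
      rcases (show j = 0 ∨ j = 1 by omega) with h3 | h3
      · subst h3; exact h1.1.symm
      · subst h3; exact h1.2.symm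
    · intro j hj
      rcases (show j = 0 ∨ j = 1 by omega) with h3 | h3
      · subst h3; exact h2.1.symm
      · subst h3; exact h2.2.symm
  have hG2 : β ≤ GT 1 T2 := by
    refine gtb β hβ.th hnc hβ.cl 1 1 T2 text2 tlast2 ?_ hex
    intro a b a' b' h ha hb
    obtain ⟨g1, g2, g3, g4⟩ := h
    have h1 := hcl a a' g1 g3 ha
    have h2 := hcl b b' g2 g4 hb
    refine text2 a a' b b' ?_ ?_ ⟨g1, g2, g3, g4⟩
    · intro j hj
      rcases (show j = 0 ∨ j = 1 by omega) with h3 | h3
      · subst h3; exact h1.1.symm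
      · subst h3; exact h1.2.symm
    · intro j hj
      rcases (show j = 0 ∨ j = 1 by omega) with h3 | h3
      · subst h3; exact h2.1.symm
      · subst h3; exact h2.2.symm
  have hT1 : T1 (v2 1 1) (v2 0 2) := ⟨fun _ _ => rfl, fun _ _ => rfl⟩
  rcases lnn β hβ.th hnc (gaa β hβ.cl) (rga β hβ.cl) hβ.md (GT 1 T1) (GT 1 T2) hG1 hG2 1
    (v2 0 2) (v2 1 1) (v2 0 2) 1 (by rw [deg1]; decide) (by rw [deg1]; decide)
    (by rw [deg1]; decide) (le_refl 1) bt1 l12 with h | h
  · exact gtn 1 1 T1 text1 tlast1 (le_refl 1) _ _ hT1 h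
  · exact gtn 1 1 T2 text2 tlast2 (le_refl 1) _ _ (t1_t2 hT1) h

end Pool.Agent.MVO.H65
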