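import Mathlib
import Pool.Agent.MVO.StmtsL

set_option autoImplicit false

/-! Row ODA of the squad MVO: over `O4` the type is the degree and the parity set. -/

namespace Pool.Agent.MVO.H65

open Pool.Agent.MVO

theorem deg_add2 (k : ℕ) (x y : ℕ → ℕ) : deg k (fun j => x j + y j) = deg k x + deg k y := by
  unfold deg
  exact Finset.sum_add_distrib

theorem deg_sg2 {k p : ℕ} (n : ℕ) (hp : p ≤ k) : deg k (sg p n) = n := by
  unfold deg sg
  rw [Finset.sum_ite_eq', if_pos (Finset.mem_range.mpr (by omega))]

theorem psh_one (f a : ℕ → ℕ) (j : ℕ) :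
    psh 1 f a j = (if f 0 = j then a 0 else 0) + (if f 1 = j then a 1 else 0) := by
  unfold psh
  rw [Finset.sum_range_succ, Finset.sum_range_succ, Finset.sum_range_zero, Nat.zero_add]

theorem o4_base {R : FC} (hR : O4 R) {k p q : ℕ} (hp : p ≤ k) (hq : q ≤ k) (hpq : p ≠ q) :
    R.R k (fun j => sg p 2 j + sg q 1 j) (sg q 3) := by
  rcases Nat.lt_or_gt_of_ne hpq with h | h
  · have hf : BMap 1 k (fun i => if i = 0 then p else q) := by
      refine ⟨?_, ?_⟩
      · intro i j hij _
        by_cases h1 : j = 0
        · have h2 : i = 0 := by omega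
          simp [h1, h2]
        · by_cases h2 : i = 0
          · simp only [h2, h1, if_true, if_false]
            exact h.le
          · simp [h1, h2]
      · intro i _
        by_cases h2 : i = 0
        · simp only [h2, if_true]
          exact hp
        · simp only [h2, if_false]
          exact hq
    have h1 := R.symm (R.push k _ hf hR.1)
    refine R.ext ?_ ?_ h1
    · intro j _
      rw [psh_one]
      simp only [if_true, one_ne_zero, if_false, v2, sg, eq_comm (a := j)]
    · intro j _
      rw [psh_one]
      simp only [if_true, one_ne_zero, if_false, v2, sg, eq_comm (a := j)]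
      simp
  · have hf : BMap 1 k (fun i => if i = 0 then q else p) := by
      refine ⟨?_, ?_⟩
      · intro i j hij _
        by_cases h1 : j = 0
        · have h2 : i = 0 := by omega
          simp [h1, h2]
        · by_cases h2 : i = 0
          · simp only [h2, h1, if_true, if_false]
            exact h.le
          · simp [h1, h2]
      · intro i _
        by_cases h2 : i = 0
        · simp only [h2, if_true]
          exact hq
        · simp only [h2, if_false]
          exact hp
    have h1 := R.push k _ hf hR.2
    refine R.ext ?_ ?_ h1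
    · intro j _
      rw [psh_one]
      simp only [if_true, one_ne_zero, if_false, v2, sg, eq_comm (a := j)]
      exact Nat.add_comm _ _
    · intro j _
      rw [psh_one]
      simp only [if_true, one_ne_zero, if_false, v2, sg, eq_comm (a := j)]
      simp

theorem o4_move {R : FC} (hR : O4 R) {k : ℕ} (d : ℕ → ℕ) (hd : 1 ≤ deg k d) {p q : ℕ}
    (hp : p ≤ k) (hq : q ≤ k) :
    R.R k (fun j => d j + sg p 2 j) (fun j => d j + sg q 2 j) := by
  obtain ⟨r, hr, hdr⟩ : ∃ r, r ≤ k ∧ 1 ≤ d r := by
    by_contra hcon
    push Not at hcon
    have h0 : deg k d = 0 := by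
      unfold deg
      apply Finset.sum_eq_zero
      intro j hj
      have := hcon j (by rw [Finset.mem_range] at hj; omega)
      omega
    omega
  have key : ∀ p, p ≤ k → R.R k (fun j => d j + sg p 2 j)
      (fun j => sg r 3 j + (if j = r then d j - 1 else d j)) := by
    intro p hp
    by_cases hpr : p = r
    · refine R.ext (fun _ _ => rfl) ?_ (R.refl k _)
      intro j _
      rw [hpr]
      unfold sg
      by_cases hj : j = r
      · simp only [if_pos hj]
        rw [hj]
        omega
      · simp only [if_neg hj]
        omega
    · have h1 := R.add (fun j => if j = r then d j - 1 else d j) (o4_base hR hp hr hpr)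
      refine R.ext ?_ (fun _ _ => rfl) h1
      intro j _
      unfold sg
      by_cases hj : j = r
      · simp only [if_pos hj]
        rw [hj, if_neg (fun h => hpr h.symm)]
        omega
      · simp only [if_neg hj]
        omega
  exact R.trans (key p hp) (R.symm (key q hq))

theorem o4_can {R : FC} (hR : O4 R) {k : ℕ} : ∀ (n : ℕ) (a : ℕ → ℕ), 3 ≤ deg k a →
    deg k a ≤ a 0 + n → ∃ a' : ℕ → ℕ, R.R k a a' ∧ deg k a' = deg k a ∧ par k a' = par k a ∧
      ∀ j, 1 ≤ j → j ≤ k → a' j ≤ 1 := by
  intro n
  induction n using Nat.strong_induction_on with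
  | _ n ih =>
    intro a h3 hn
    by_cases hall : ∀ j, 1 ≤ j → j ≤ k → a j ≤ 1
    · exact ⟨a, R.refl k a, rfl, rfl, hall⟩
    · push Not at hall
      obtain ⟨p, hp1, hpk, hap⟩ := hall
      obtain ⟨d, hd⟩ : ∃ d : ℕ → ℕ, ∀ j, d j = if j = p then a j - 2 else a j :=
        ⟨fun j => if j = p then a j - 2 else a j, fun _ => rfl⟩
      have ha : ∀ j, a j = d j + sg p 2 j := by
        intro j
        rw [hd]
        unfold sg
        by_cases hj : j = p
        · simp only [if_pos hj]
          rw [hj]
          omega
        · simp only [if_neg hj]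
          omega
      have hdega : deg k a = deg k d + 2 := by
        have h1 : a = fun j => d j + sg p 2 j := funext ha
        rw [h1, deg_add2, deg_sg2 2 hpk]
      have hdega1 : deg k (fun j => d j + sg 0 2 j) = deg k a := by
        rw [deg_add2, deg_sg2 2 (Nat.zero_le k), hdega]
      have hd0 : d 0 = a 0 := by
        rw [hd, if_neg (by omega)]
      have hpos : n ≠ 0 := by
        rintro rfl
        have h1 : a 0 + a p ≤ deg k a := by
          unfold deg
          calc a 0 + a p = ∑ j ∈ ({0, p} : Finset ℕ), a j := by
                rw [Finset.sum_pair (by omega)]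
            _ ≤ ∑ j ∈ Finset.range (k + 1), a j := by
                apply Finset.sum_le_sum_of_subset
                intro j hj
                rw [Finset.mem_insert, Finset.mem_singleton] at hj
                rw [Finset.mem_range]
                omega
        omega
      obtain ⟨a', h1, h2, h4, h5⟩ := ih (n - 1) (by omega) (fun j => d j + sg 0 2 j)
        (by rw [hdega1]; exact h3) (by
          rw [hdega1]
          show deg k a ≤ d 0 + sg 0 2 0 + (n - 1)
          have : sg 0 2 0 = 2 := rfl
          omega)
      refine ⟨a', ?_, ?_, ?_, h5⟩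
      · have h6 := o4_move hR d (by omega) hpk (Nat.zero_le k)
        refine R.trans (R.ext (fun j _ => (ha j).symm) (fun _ _ => rfl) h6) h1
      · rw [h2, hdega1]
      · rw [h4]
        unfold par
        apply Finset.filter_congr
        intro j _
        have h7 : ∀ i, sg i 2 j % 2 = 0 := by
          intro i
          unfold sg
          split_ifs <;> rfl
        rw [ha j]
        have h8 := h7 0
        have h9 := h7 p
        beta_reduce
        omega

theorem oda : OdaStmt := by
  intro R k a b hR h3 hdeg hpar
  obtain ⟨a', ha1, ha2, ha3, ha4⟩ := o4_can hR (deg k a) a h3 (Nat.le_add_left _ _)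
  obtain ⟨b', hb1, hb2, hb3, hb4⟩ := o4_can hR (deg k b) b (by omega) (Nat.le_add_left _ _)
  have hpos : ∀ j, 1 ≤ j → j ≤ k → a' j = b' j := by
    intro j h1 hk
    have h2 : j ∈ par k a' ↔ j ∈ par k b' := by rw [ha3, hb3, hpar]
    unfold par at h2
    rw [Finset.mem_filter, Finset.mem_filter] at h2
    have hm : j ∈ Finset.range (k + 1) := Finset.mem_range.mpr (by omega)
    have h4 := ha4 j h1 hk
    have h5 := hb4 j h1 hk
    simp only [hm, true_and] at h2
    omega
  have h0 : a' 0 = b' 0 := by
    have h6 : deg k a' = deg k b' := by rw [ha2, hb2, hdeg]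
    unfold deg at h6
    rw [Finset.sum_range_succ', Finset.sum_range_succ'] at h6
    have h7 : ∑ i ∈ Finset.range k, a' (i + 1) = ∑ i ∈ Finset.range k, b' (i + 1) := by
      apply Finset.sum_congr rfl
      intro i hi
      rw [Finset.mem_range] at hi
      exact hpos (i + 1) (by omega) (by omega)
    omega
  have hab : R.R k a' b' := by
    refine R.ext (fun _ _ => rfl) ?_ (R.refl k a')
    intro j hj
    rcases Nat.eq_zero_or_pos j with h | h
    · rw [h]
      exact h0
    · exact hpos j h hj
  exact R.trans ha1 (R.trans hab (R.symm hb1))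

end Pool.Agent.MVO.H65
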